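import Pool.Agent.Q210.BD.LowR
import Pool.Agent.Q260.OE.Stm

set_option autoImplicit false

/-!
# Project OE, job STR: the structure of the error of a nearly optimal approximation
-/

namespace Pool.Agent.Q193.OE

open Complex MeasureTheory Filter Topology Set
open Pool.Agent.Q286.BD
open Pool.Agent.Q210.BD (JR_inv frK pairK)
open Pool.Agent.Q260.OE (pm BS De Mo S_LEG S_STR)

/-- the substitution `y = e^w` -/
theorem exp_int (f : ℝ → ℝ) : (IntegrableOn f (Ioi 0) ↔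
    Integrable (fun u : ℝ => Real.exp u * f (Real.exp u))) ∧
    ∫ x in Ioi (0 : ℝ), f x = ∫ u : ℝ, Real.exp u * f (Real.exp u) := by
  have hd : ∀ u ∈ (univ : Set ℝ), HasDerivWithinAt Real.exp (Real.exp u) univ u :=
    fun u _ => (Real.hasDerivAt_exp u).hasDerivWithinAt
  have hinj : InjOn Real.exp univ := Real.exp_injective.injOn
  have him : Real.exp '' univ = Ioi 0 := by
    rw [image_univ, Real.range_exp]
  have hab : ∀ u : ℝ, |Real.exp u| = Real.exp u := fun u => abs_of_pos (Real.exp_pos _)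
  constructor
  · have h := integrableOn_image_iff_integrableOn_abs_deriv_smul MeasurableSet.univ hd hinj f
    rw [him, integrableOn_univ] at h
    rw [h]
    simp only [hab, smul_eq_mul]
  · have h := integral_image_eq_integral_abs_deriv_smul MeasurableSet.univ hd hinj f
    rw [him, setIntegral_univ] at h
    rw [h]
    simp only [hab, smul_eq_mul]

theorem meas_dif (a : ℝ →₀ ℝ) : Measurable (difR a) := by
  have h : difR a = fun x => (if x ≤ 1 then (1 : ℝ) else 0) - ∑ θ ∈ a.support, a θ * Int.fract (θ / x) := rfl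
  rw [h]
  refine Measurable.sub (Measurable.ite measurableSet_Iic measurable_const measurable_const) ?_
  refine Finset.measurable_fun_sum _ fun θ _ => ?_
  exact (Measurable.fract (measurable_const.div measurable_id)).const_mul _

theorem sq_split {x y z : ℂ} {ε : ℝ} (hε : 0 < ε) :
    ‖x - z‖ ^ 2 ≤ (1 + ε) * ‖x - y‖ ^ 2 + (1 + 1 / ε) * ‖y - z‖ ^ 2 := by
  have h4 : ‖x - z‖ ≤ ‖x - y‖ + ‖y - z‖ := norm_sub_le_norm_sub_add_norm_sub x y z
  have h5 : ‖x - z‖ ^ 2 ≤ (‖x - y‖ + ‖y - z‖) ^ 2 := pow_le_pow_left₀ (norm_nonneg _) h4 2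
  obtain ⟨A, hA⟩ : ∃ A, A = ‖x - y‖ := ⟨_, rfl⟩
  obtain ⟨B, hB⟩ : ∃ B, B = ‖y - z‖ := ⟨_, rfl⟩
  rw [← hA, ← hB] at h5 ⊢
  have h7 : 0 ≤ (ε * A - B) ^ 2 / ε := by positivity
  have h8 : (ε * A - B) ^ 2 / ε = ε * A ^ 2 - 2 * A * B + 1 / ε * B ^ 2 := by
    field_simp
    ring
  rw [h8] at h7
  nlinarith

/-- the pointwise identity -/
theorem pt_eq {D y L : ℝ} (hy : 0 < y) (z : ℂ) :
    ‖(D : ℂ) - 1 / (L : ℂ) * (y : ℂ) ^ 2 * (starRingEnd ℂ) z‖ ^ 2 / y ^ 2 =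
      (D / y) ^ 2 - 2 / L * ((D : ℂ) * z).re + 1 / L ^ 2 * (‖z‖ ^ 2 * y ^ 2) := by
  have h1 : 1 / (L : ℂ) * (y : ℂ) ^ 2 * (starRingEnd ℂ) z = ((1 / L * y ^ 2 : ℝ) : ℂ) * (starRingEnd ℂ) z := by
    push_cast
    ring
  rw [h1, Complex.sq_norm, Complex.sq_norm, Complex.normSq_sub, Complex.normSq_ofReal, Complex.normSq_mul,
    Complex.normSq_ofReal, Complex.normSq_conj, map_mul, Complex.conj_conj, Complex.conj_ofReal]
  have h2 : ((D : ℂ) * (((1 / L * y ^ 2 : ℝ) : ℂ) * z)).re = 1 / L * y ^ 2 * ((D : ℂ) * z).re := by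
    rw [Complex.re_ofReal_mul, Complex.re_ofReal_mul, Complex.re_ofReal_mul]
    ring
  rw [h2]
  by_cases hL : L = 0
  · subst hL
    field_simp
    ring
  · field_simp
    ring

theorem pt_eq2 {y L : ℝ} (hy : 0 < y) (z z' : ℂ) :
    ‖1 / (L : ℂ) * (y : ℂ) ^ 2 * (starRingEnd ℂ) z - 1 / (L : ℂ) * (y : ℂ) ^ 2 * (starRingEnd ℂ) z'‖ ^ 2 / y ^ 2 =
      1 / L ^ 2 * (‖z - z'‖ ^ 2 * y ^ 2) := by
  rw [← mul_sub, ← map_sub]
  have h := pt_eq (D := 0) (L := L) hy (z - z')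
  rw [Complex.ofReal_zero, zero_sub, norm_neg, zero_mul, Complex.zero_re] at h
  rw [h]
  ring

/-- the structure inequality for a pair of test functions -/
theorem core (h3 : S_intR) (a : ℝ →₀ ℝ) (ha : ∀ θ ∈ a.support, 0 < θ ∧ θ ≤ 1) {k km : ℝ → ℂ}
    (hkmm : Measurable km) (hK : IntegrableOn k (Ioi 0))
    (hK2 : IntegrableOn (fun y : ℝ => ‖k y‖ ^ 2 * y ^ 2) (Ioi 0))
    (ho : ∀ θ ∈ a.support, ∫ y in Ioi (0 : ℝ), ((Int.fract (θ * y) : ℝ) : ℂ) * k y = 0)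
    (hE : IntegrableOn (fun y : ℝ => ‖k y - km y‖ ^ 2 * y ^ 2) (Ioi 0)) {L ε : ℝ} (hε : 0 < ε) :
    IntegrableOn (fun y : ℝ => ‖((difR a (1 / y) : ℝ) : ℂ) -
      1 / (L : ℂ) * (y : ℂ) ^ 2 * (starRingEnd ℂ) (km y)‖ ^ 2 / y ^ 2) (Ioi 0) ∧
    ∫ y in Ioi (0 : ℝ), ‖((difR a (1 / y) : ℝ) : ℂ) -
      1 / (L : ℂ) * (y : ℂ) ^ 2 * (starRingEnd ℂ) (km y)‖ ^ 2 / y ^ 2 ≤
      (1 + ε) * (JR a - 2 / L * (∫ y in Ioi (1 : ℝ), k y).re + 1 / L ^ 2 * ∫ y in Ioi (0 : ℝ), ‖k y‖ ^ 2 * y ^ 2) +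
        (1 + 1 / ε) * (1 / L ^ 2 * ∫ y in Ioi (0 : ℝ), ‖k y - km y‖ ^ 2 * y ^ 2) := by
  obtain ⟨i1, i2⟩ := JR_inv h3 a ha
  obtain ⟨p1, p2⟩ := pairK a hK ho
  have p1re : IntegrableOn (fun y : ℝ => (((difR a (1 / y) : ℝ) : ℂ) * k y).re) (Ioi 0) := p1.re
  have hre : (∫ y in Ioi (1 : ℝ), k y).re = ∫ y in Ioi (0 : ℝ), (((difR a (1 / y) : ℝ) : ℂ) * k y).re := by
    rw [← p2]
    exact (integral_re p1).symm
  have hb : ∀ y ∈ Ioi (0 : ℝ), ‖((difR a (1 / y) : ℝ) : ℂ) -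
      1 / (L : ℂ) * (y : ℂ) ^ 2 * (starRingEnd ℂ) (km y)‖ ^ 2 / y ^ 2 ≤
      (1 + ε) * ((difR a (1 / y) / y) ^ 2 - 2 / L * (((difR a (1 / y) : ℝ) : ℂ) * k y).re +
        1 / L ^ 2 * (‖k y‖ ^ 2 * y ^ 2)) + (1 + 1 / ε) * (1 / L ^ 2 * (‖k y - km y‖ ^ 2 * y ^ 2)) := by
    intro y hy
    have hy0 : (0 : ℝ) < y := hy
    rw [← pt_eq hy0, ← pt_eq2 hy0, ← mul_div_assoc, ← mul_div_assoc, ← add_div]
    exact div_le_div_of_nonneg_right (sq_split hε) (sq_nonneg _)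
  have j1 : IntegrableOn (fun y : ℝ => (difR a (1 / y) / y) ^ 2 - 2 / L * (((difR a (1 / y) : ℝ) : ℂ) * k y).re)
      (Ioi 0) := i1.sub (p1re.const_mul _)
  have j2 : IntegrableOn (fun y : ℝ => (difR a (1 / y) / y) ^ 2 - 2 / L * (((difR a (1 / y) : ℝ) : ℂ) * k y).re +
        1 / L ^ 2 * (‖k y‖ ^ 2 * y ^ 2)) (Ioi 0) := j1.add (hK2.const_mul _)
  have j3 : IntegrableOn (fun y : ℝ => (1 + ε) * ((difR a (1 / y) / y) ^ 2 -
      2 / L * (((difR a (1 / y) : ℝ) : ℂ) * k y).re + 1 / L ^ 2 * (‖k y‖ ^ 2 * y ^ 2)) +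
      (1 + 1 / ε) * (1 / L ^ 2 * (‖k y - km y‖ ^ 2 * y ^ 2))) (Ioi 0) :=
    (j2.const_mul _).add ((hE.const_mul _).const_mul _)
  have j4 : IntegrableOn (fun y : ℝ => ‖((difR a (1 / y) : ℝ) : ℂ) -
      1 / (L : ℂ) * (y : ℂ) ^ 2 * (starRingEnd ℂ) (km y)‖ ^ 2 / y ^ 2) (Ioi 0) := by
    refine Integrable.mono' j3 ?_ ?_
    · refine Measurable.aestronglyMeasurable ?_
      refine Measurable.div (Measurable.pow_const (Measurable.norm (Measurable.sub ?_ ?_)) 2)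
        (measurable_id.pow_const 2)
      · exact Complex.measurable_ofReal.comp ((meas_dif a).comp (measurable_const.div measurable_id))
      · refine Measurable.mul (measurable_const.mul (Complex.measurable_ofReal.pow_const 2)) ?_
        exact Complex.continuous_conj.measurable.comp hkmm
    · refine (ae_restrict_mem measurableSet_Ioi).mono fun y hy => ?_
      rw [Real.norm_of_nonneg (by positivity)]
      exact hb y hy
  refine ⟨j4, ?_⟩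
  refine (setIntegral_mono_on j4 j3 measurableSet_Ioi hb).trans (le_of_eq ?_)
  rw [integral_add (j2.const_mul _) ((hE.const_mul _).const_mul _), integral_const_mul, integral_const_mul,
    integral_const_mul, integral_add j1 (hK2.const_mul _), integral_sub i1 (p1re.const_mul _),
    integral_const_mul, integral_const_mul, i2, hre]

theorem alg {J M W C1 C2 C0 R N E q : ℝ} (hq : 0 < q) (hq1 : q ≤ 1) (hM : 0 ≤ M) (hW : 0 ≤ W) (hC1 : 0 ≤ C1)
    (hC2 : 0 ≤ C2) (hJ : J ≤ C0 * q ^ 2) (hR : M - W * q ^ 2 ≤ R)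
    (hN : q ^ 4 * N ≤ (1 + q) * (M * q ^ 2 + C1 * q ^ 4) + (q ^ 4 + q ^ 3) * C2)
    (hE : (1 + 1 / q) * (q ^ 4 * E) ≤ (q ^ 4 + q ^ 3) * C2) :
    (1 + q) * (J - 2 * q ^ 2 * R + q ^ 4 * N) + (1 + 1 / q) * (q ^ 4 * E) ≤
      J - M * q ^ 2 + (2 * (2 * W + M + 2 * C1 + 2 * C2) + C0 + 2 * C2) * q ^ 3 := by
  have q3 : 0 < q ^ 3 := by positivity
  have q43 : q ^ 4 ≤ q ^ 3 := pow_le_pow_of_le_one hq.le hq1 (by norm_num)
  have q53 : q ^ 5 ≤ q ^ 3 := pow_le_pow_of_le_one hq.le hq1 (by norm_num)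
  have a1 : q ^ 2 * (M - W * q ^ 2) ≤ q ^ 2 * R := mul_le_mul_of_nonneg_left hR (by positivity)
  have a2 : W * q ^ 4 ≤ W * q ^ 3 := mul_le_mul_of_nonneg_left q43 hW
  have a3 : C1 * q ^ 4 ≤ C1 * q ^ 3 := mul_le_mul_of_nonneg_left q43 hC1
  have a4 : C1 * q ^ 5 ≤ C1 * q ^ 3 := mul_le_mul_of_nonneg_left q53 hC1
  have a5 : C2 * q ^ 4 ≤ C2 * q ^ 3 := mul_le_mul_of_nonneg_left q43 hC2
  have i1 : J - 2 * q ^ 2 * R + q ^ 4 * N ≤ J - M * q ^ 2 + (2 * W + M + 2 * C1 + 2 * C2) * q ^ 3 := by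
    nlinarith
  obtain ⟨X, hX⟩ : ∃ X, X = 2 * W + M + 2 * C1 + 2 * C2 := ⟨_, rfl⟩
  have hX0 : 0 ≤ X := by rw [hX]; positivity
  rw [← hX] at i1 ⊢
  have i2 : (1 + q) * (J - 2 * q ^ 2 * R + q ^ 4 * N) ≤ (1 + q) * (J - M * q ^ 2 + X * q ^ 3) :=
    mul_le_mul_of_nonneg_left i1 (by positivity)
  have i3 : q * (J - M * q ^ 2 + X * q ^ 3) ≤ q * (C0 * q ^ 2 + X * q ^ 3) := by
    refine mul_le_mul_of_nonneg_left ?_ hq.le
    have : 0 ≤ M * q ^ 2 := by positivity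
    linarith
  have a6 : X * q ^ 4 ≤ X * q ^ 3 := mul_le_mul_of_nonneg_left q43 hX0
  nlinarith

/-- **STR** -/
theorem t_STR (h0 : S_LEG) (h1 : S_TR) (h2 : S_TN) (h3 : S_intR) : S_STR := by
  intro S hS C0 hC0
  obtain ⟨M, hMd⟩ : ∃ M : ℝ, M = BS S := ⟨_, rfl⟩
  rw [← hMd]
  have hMd' : M = ∑ g ∈ S, (mz (cl g) : ℝ) ^ 2 / (1 / 4 + g ^ 2) := hMd
  have hM0 : 0 ≤ M := by
    rw [hMd']
    exact Finset.sum_nonneg fun g _ => by positivity
  obtain ⟨p, hpp⟩ : ∃ p : ℝ → Polynomial ℝ, p = fun g => pm (mz (cl g)) := ⟨_, rfl⟩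
  have hpd : ∀ g : ℝ, (p g).degree < mz (cl g) := fun g => by rw [hpp]; exact (h0 _).1
  have hp0 : ∀ g : ℝ, (p g).eval 0 = (mz (cl g) : ℝ) ^ 2 := fun g => by rw [hpp]; exact (h0 _).2.1
  have hpi : ∀ g : ℝ, ∫ u in (0 : ℝ)..1, (p g).eval u ^ 2 = (mz (cl g) : ℝ) ^ 2 := fun g => by
    rw [hpp]; exact (h0 _).2.2.2.1
  have hTR : ∀ g : ℝ, ∃ C : ℝ, 0 < C ∧ (g ∈ S → ∀ L : ℝ, 1 ≤ L → ∃ K : ℝ → ℂ, Measurable K ∧ IntegrableOn K (Ioi 0) ∧
      (∀ θ : ℝ, Real.exp (-L) ≤ θ → θ ≤ 1 → ∫ y in Ioi (0 : ℝ), ((Int.fract (θ * y) : ℝ) : ℂ) * K y = 0) ∧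
      ‖(∫ y in Ioi (1 : ℝ), K y) - (((p g).eval 0 : ℝ) : ℂ) / cl g‖ ≤ C / L ∧
      IntegrableOn (fun y : ℝ => ‖K y - Km g (p g) L y‖ ^ 2 * y ^ 2) (Ioi 0) ∧
      ∫ y in Ioi (0 : ℝ), ‖K y - Km g (p g) L y‖ ^ 2 * y ^ 2 ≤ C) := by
    intro g
    by_cases hg : g ∈ S
    · obtain ⟨C, hC, hC'⟩ := h1 g (p g) (hS g hg) (hpd g)
      exact ⟨C, hC, fun _ => hC'⟩
    · exact ⟨1, one_pos, fun h => absurd h hg⟩
  choose C hC0' hC using hTR
  obtain ⟨w, hwd⟩ : ∃ w : ℝ → ℂ, w = fun g => 1 / (starRingEnd ℂ) (cl g) := ⟨_, rfl⟩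
  have hcl : ∀ g : ℝ, Complex.normSq (cl g) = 1 / 4 + g ^ 2 := by
    intro g
    unfold cl
    rw [Complex.normSq_apply]
    simp
    ring
  have hw1 : ∀ g : ℝ, w g * (((p g).eval 0 : ℝ) : ℂ) / cl g =
      (((mz (cl g) : ℝ) ^ 2 / (1 / 4 + g ^ 2) : ℝ) : ℂ) := by
    intro g
    have e1 : (starRingEnd ℂ) (cl g) * cl g = ((1 / 4 + g ^ 2 : ℝ) : ℂ) := by
      rw [mul_comm, Complex.mul_conj, hcl]
    rw [hwd, hp0, Complex.ofReal_div, ← e1]
    change 1 / (starRingEnd ℂ) (cl g) * _ / cl g = _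
    rw [one_div_mul_eq_div, div_div]
  have hw2 : ∀ g : ℝ, ‖w g‖ ^ 2 = 1 / (1 / 4 + g ^ 2) := by
    intro g
    rw [hwd]
    change ‖1 / (starRingEnd ℂ) (cl g)‖ ^ 2 = _
    rw [norm_div, norm_one, RCLike.norm_conj, div_pow, one_pow, Complex.sq_norm, hcl]
  obtain ⟨W, hWd⟩ : ∃ W : ℝ, W = ∑ g ∈ S, ‖w g‖ * C g := ⟨_, rfl⟩
  have hW0 : 0 ≤ W := by
    rw [hWd]
    exact Finset.sum_nonneg fun g _ => mul_nonneg (norm_nonneg _) (hC0' g).le
  obtain ⟨C1, hC1, hTN⟩ := h2 S p w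
  obtain ⟨C2, hC2d⟩ : ∃ C2 : ℝ, C2 = S.card * ∑ g ∈ S, ‖w g‖ ^ 2 * C g := ⟨_, rfl⟩
  have hC20 : 0 ≤ C2 := by
    rw [hC2d]
    exact mul_nonneg (Nat.cast_nonneg _) (Finset.sum_nonneg fun g _ => mul_nonneg (sq_nonneg _) (hC0' g).le)
  refine ⟨2 * (2 * W + M + 2 * C1 + 2 * C2) + C0 + 2 * C2, by positivity, ?_⟩
  intro L hL1 a ha hJ0
  have hLp : 0 < L := by linarith
  have ha' : ∀ θ ∈ a.support, 0 < θ ∧ θ ≤ 1 :=
    fun θ hθ => ⟨lt_of_lt_of_le (Real.exp_pos _) (ha θ hθ).1, (ha θ hθ).2⟩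
  have hK : ∀ g : ℝ, ∃ K : ℝ → ℂ, g ∈ S → Measurable K ∧ IntegrableOn K (Ioi 0) ∧
      (∀ θ : ℝ, Real.exp (-L) ≤ θ → θ ≤ 1 → ∫ y in Ioi (0 : ℝ), ((Int.fract (θ * y) : ℝ) : ℂ) * K y = 0) ∧
      ‖(∫ y in Ioi (1 : ℝ), K y) - (((p g).eval 0 : ℝ) : ℂ) / cl g‖ ≤ C g / L ∧
      IntegrableOn (fun y : ℝ => ‖K y - Km g (p g) L y‖ ^ 2 * y ^ 2) (Ioi 0) ∧
      ∫ y in Ioi (0 : ℝ), ‖K y - Km g (p g) L y‖ ^ 2 * y ^ 2 ≤ C g := by
    intro g
    by_cases hg : g ∈ S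
    · obtain ⟨K, h⟩ := hC g hg L hL1
      exact ⟨K, fun _ => h⟩
    · exact ⟨0, fun h => absurd h hg⟩
  choose K hKK using hK
  have hKmm : ∀ g : ℝ, Measurable (Km g (p g) L) := by
    intro g
    unfold Km
    refine Measurable.ite (measurableSet_Icc (a := (1 : ℝ)) (b := Real.exp L)) ?_ measurable_const
    refine Measurable.mul (Complex.measurable_ofReal.pow_const _) ?_
    exact Complex.measurable_ofReal.comp ((p g).continuous.measurable.comp (Real.measurable_log.div_const _))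
  obtain ⟨k, hk⟩ : ∃ k : ℝ → ℂ, k = fun y => ∑ g ∈ S, w g * K g y := ⟨_, rfl⟩
  obtain ⟨km, hkm⟩ : ∃ km : ℝ → ℂ, km = fun y => ∑ g ∈ S, w g * Km g (p g) L y := ⟨_, rfl⟩
  have hkmeas : Measurable k := by
    rw [hk]
    exact Finset.measurable_fun_sum _ fun g hg => (hKK g hg).1.const_mul _
  have hkmmeas : Measurable km := by
    rw [hkm]
    exact Finset.measurable_fun_sum _ fun g hg => (hKmm g).const_mul _
  have hkint : IntegrableOn k (Ioi 0) := by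
    rw [hk]
    exact integrable_finsetSum _ fun g hg => (hKK g hg).2.1.const_mul _
  obtain ⟨n1, n2⟩ := hTN L hL1
  have hsum : ∑ g ∈ S, ‖w g‖ ^ 2 * (∫ u in (0 : ℝ)..1, (p g).eval u ^ 2) = M := by
    rw [hMd']
    refine Finset.sum_congr rfl fun g _ => ?_
    rw [hw2, hpi]
    ring
  rw [hsum] at n2
  have n1' : IntegrableOn (fun y : ℝ => ‖km y‖ ^ 2 * y ^ 2) (Ioi 0) := by rw [hkm]; exact n1
  have n2' : ∫ y in Ioi (0 : ℝ), ‖km y‖ ^ 2 * y ^ 2 ≤ L * M + C1 := by rw [hkm]; exact n2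
  -- the error part
  have e1 : ∀ y : ℝ, ‖k y - km y‖ ^ 2 * y ^ 2 ≤ S.card * ∑ g ∈ S, ‖w g‖ ^ 2 * (‖K g y - Km g (p g) L y‖ ^ 2 * y ^ 2) := by
    intro y
    have h4 : k y - km y = ∑ g ∈ S, w g * (K g y - Km g (p g) L y) := by
      rw [hk, hkm]
      simp only
      rw [← Finset.sum_sub_distrib]
      exact Finset.sum_congr rfl fun g _ => by ring
    have h5 : ‖k y - km y‖ ≤ ∑ g ∈ S, ‖w g * (K g y - Km g (p g) L y)‖ := by
      rw [h4]
      exact norm_sum_le _ _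
    have h6 : ‖k y - km y‖ ^ 2 ≤ S.card * ∑ g ∈ S, ‖w g * (K g y - Km g (p g) L y)‖ ^ 2 :=
      (pow_le_pow_left₀ (norm_nonneg _) h5 2).trans sq_sum_le_card_mul_sum_sq
    calc ‖k y - km y‖ ^ 2 * y ^ 2 ≤ (S.card * ∑ g ∈ S, ‖w g * (K g y - Km g (p g) L y)‖ ^ 2) * y ^ 2 :=
          mul_le_mul_of_nonneg_right h6 (sq_nonneg _)
      _ = S.card * ∑ g ∈ S, ‖w g‖ ^ 2 * (‖K g y - Km g (p g) L y‖ ^ 2 * y ^ 2) := by
          rw [mul_assoc, Finset.sum_mul]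
          congr 1
          refine Finset.sum_congr rfl fun g _ => ?_
          rw [norm_mul, mul_pow]
          ring
  have i3 : IntegrableOn (fun y : ℝ => (S.card : ℝ) * ∑ g ∈ S, ‖w g‖ ^ 2 * (‖K g y - Km g (p g) L y‖ ^ 2 * y ^ 2))
      (Ioi 0) := Integrable.const_mul (integrable_finsetSum _ fun g hg => (hKK g hg).2.2.2.2.1.const_mul _) _
  have i3v : ∫ y in Ioi (0 : ℝ), (S.card : ℝ) * ∑ g ∈ S, ‖w g‖ ^ 2 * (‖K g y - Km g (p g) L y‖ ^ 2 * y ^ 2) ≤ C2 := by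
    rw [integral_const_mul, integral_finsetSum _ fun g hg => (hKK g hg).2.2.2.2.1.const_mul _, hC2d]
    refine mul_le_mul_of_nonneg_left (Finset.sum_le_sum fun g hg => ?_) (Nat.cast_nonneg _)
    rw [integral_const_mul]
    exact mul_le_mul_of_nonneg_left (hKK g hg).2.2.2.2.2 (sq_nonneg _)
  have hE : IntegrableOn (fun y : ℝ => ‖k y - km y‖ ^ 2 * y ^ 2) (Ioi 0) := by
    refine Integrable.mono' i3 ?_ (Filter.Eventually.of_forall fun y => ?_)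
    · exact (((hkmeas.sub hkmmeas).norm.pow_const 2).mul (measurable_id.pow_const 2)).aestronglyMeasurable
    · rw [Real.norm_of_nonneg (by positivity)]
      exact e1 y
  have hEv : ∫ y in Ioi (0 : ℝ), ‖k y - km y‖ ^ 2 * y ^ 2 ≤ C2 := (integral_mono hE i3 e1).trans i3v
  -- the scale
  obtain ⟨q, hqd⟩ : ∃ q : ℝ, q = 1 / Real.sqrt L := ⟨_, rfl⟩
  have hsL : 1 ≤ Real.sqrt L := Real.one_le_sqrt.2 hL1
  have hsp : 0 < Real.sqrt L := by linarith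
  have hq0 : 0 < q := by rw [hqd]; positivity
  have hq1 : q ≤ 1 := by
    rw [hqd, div_le_one hsp]
    exact hsL
  have hq2 : q ^ 2 = 1 / L := by
    rw [hqd, div_pow, one_pow, Real.sq_sqrt hLp.le]
  have hq3 : 1 / L ^ (3 / 2 : ℝ) = q ^ 3 := by
    have e1 : L ^ (3 / 2 : ℝ) = L * Real.sqrt L := by
      rw [Real.sqrt_eq_rpow, show (3 / 2 : ℝ) = 1 + 1 / 2 by norm_num, Real.rpow_add hLp, Real.rpow_one]
    rw [e1, show q ^ 3 = q ^ 2 * q by ring, hq2, hqd]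
    field_simp
  have hq4 : q ^ 4 = 1 / L ^ 2 := by
    rw [show q ^ 4 = (q ^ 2) ^ 2 by ring, hq2]
    ring
  -- the norm
  have e2 : ∀ y : ℝ, ‖k y‖ ^ 2 * y ^ 2 ≤ (1 + q) * (‖km y‖ ^ 2 * y ^ 2) +
      (1 + 1 / q) * (‖k y - km y‖ ^ 2 * y ^ 2) := by
    intro y
    have h4 := sq_split (x := k y) (y := k y - km y) (z := 0) hq0
    rw [sub_zero, sub_zero] at h4
    have h5 : k y - (k y - km y) = km y := by ring
    rw [h5] at h4
    have h7 := mul_le_mul_of_nonneg_right h4 (sq_nonneg y)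
    linarith
  have i4 : IntegrableOn (fun y : ℝ => (1 + q) * (‖km y‖ ^ 2 * y ^ 2) +
      (1 + 1 / q) * (‖k y - km y‖ ^ 2 * y ^ 2)) (Ioi 0) :=
    (n1'.const_mul _).add (hE.const_mul _)
  have i5 : IntegrableOn (fun y : ℝ => ‖k y‖ ^ 2 * y ^ 2) (Ioi 0) := by
    refine Integrable.mono' i4 ?_ (Filter.Eventually.of_forall fun y => ?_)
    · exact ((hkmeas.norm.pow_const 2).mul (measurable_id.pow_const 2)).aestronglyMeasurable
    · rw [Real.norm_of_nonneg (by positivity)]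
      exact e2 y
  have hN : ∫ y in Ioi (0 : ℝ), ‖k y‖ ^ 2 * y ^ 2 ≤ (1 + q) * (L * M + C1) + (1 + 1 / q) * C2 := by
    refine (integral_mono i5 i4 e2).trans ?_
    rw [integral_add (n1'.const_mul _) (hE.const_mul _), integral_const_mul, integral_const_mul]
    exact add_le_add (mul_le_mul_of_nonneg_left n2' (by positivity)) (mul_le_mul_of_nonneg_left hEv (by positivity))
  -- orthogonality
  have horth : ∀ θ ∈ a.support, ∫ y in Ioi (0 : ℝ), ((Int.fract (θ * y) : ℝ) : ℂ) * k y = 0 := by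
    intro θ hθ
    have h4 : (fun y : ℝ => ((Int.fract (θ * y) : ℝ) : ℂ) * k y) = fun y =>
        ∑ g ∈ S, w g * (((Int.fract (θ * y) : ℝ) : ℂ) * K g y) := by
      funext y
      rw [hk, Finset.mul_sum]
      exact Finset.sum_congr rfl fun g _ => by ring
    rw [h4, integral_finsetSum _ fun g hg => (frK (hKK g hg).2.1 θ).const_mul _]
    refine Finset.sum_eq_zero fun g hg => ?_
    rw [integral_const_mul, (hKK g hg).2.2.1 θ (ha θ hθ).1 (ha θ hθ).2, mul_zero]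
  -- the main term
  have hmain : M - W / L ≤ (∫ y in Ioi (1 : ℝ), k y).re := by
    have e4 : ∫ y in Ioi (1 : ℝ), k y = ∑ g ∈ S, w g * ∫ y in Ioi (1 : ℝ), K g y := by
      rw [hk, integral_finsetSum _ fun g hg =>
        ((hKK g hg).2.1.mono_set (Ioi_subset_Ioi zero_le_one)).const_mul _]
      exact Finset.sum_congr rfl fun g _ => integral_const_mul _ _
    have e5 : (M : ℂ) = ∑ g ∈ S, w g * ((((p g).eval 0 : ℝ) : ℂ) / cl g) := by
      rw [hMd', Complex.ofReal_sum]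
      refine Finset.sum_congr rfl fun g _ => ?_
      rw [← hw1, mul_div_assoc]
    have e6 : ‖(∫ y in Ioi (1 : ℝ), k y) - (M : ℂ)‖ ≤ W / L := by
      rw [e4, e5, ← Finset.sum_sub_distrib]
      refine (norm_sum_le _ _).trans ?_
      rw [hWd, Finset.sum_div]
      refine Finset.sum_le_sum fun g hg => ?_
      rw [← mul_sub, norm_mul, mul_div_assoc]
      exact mul_le_mul_of_nonneg_left (hKK g hg).2.2.2.1 (norm_nonneg _)
    have e7 := (Complex.abs_re_le_norm ((∫ y in Ioi (1 : ℝ), k y) - (M : ℂ))).trans e6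
    rw [Complex.sub_re, Complex.ofReal_re, abs_le] at e7
    linarith [e7.1]
  obtain ⟨c1, c2⟩ := core h3 a ha' hkmmeas hkint i5 horth hE (L := L) hq0
  have hbound := alg (J := JR a) (M := M) (W := W) (C1 := C1) (C2 := C2) (C0 := C0)
    (R := (∫ y in Ioi (1 : ℝ), k y).re) (N := ∫ y in Ioi (0 : ℝ), ‖k y‖ ^ 2 * y ^ 2)
    (E := ∫ y in Ioi (0 : ℝ), ‖k y - km y‖ ^ 2 * y ^ 2) hq0 hq1 hM0 hW0 hC1.le hC20
    (by rw [hq2, mul_one_div]; exact hJ0) (by rw [hq2, mul_one_div]; exact hmain)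
    (by
      have h4 := mul_le_mul_of_nonneg_left hN (show (0 : ℝ) ≤ q ^ 4 by positivity)
      refine h4.trans (le_of_eq ?_)
      have h5 : q ^ 4 * ((1 + q) * (L * M + C1) + (1 + 1 / q) * C2) =
        (1 + q) * (q ^ 2 * L * (q ^ 2) * M + C1 * q ^ 4) + (q ^ 4 + q ^ 4 * (1 / q)) * C2 := by ring
      have h6 : q ^ 2 * L = 1 := by rw [hq2]; field_simp
      have h7 : q ^ 4 * (1 / q) = q ^ 3 := by field_simp
      rw [h5, h6, h7]
      ring)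
    (by
      have h4 := mul_le_mul_of_nonneg_left hEv (show (0 : ℝ) ≤ (1 + 1 / q) * q ^ 4 by positivity)
      have h7 : (1 + 1 / q) * q ^ 4 = q ^ 4 + q ^ 3 := by field_simp
      rw [h7] at h4
      rw [← mul_assoc, h7]
      exact h4)
  -- back to the variable `w`
  have key : ∀ u : ℝ, Real.exp u * (‖((difR a (1 / Real.exp u) : ℝ) : ℂ) -
      1 / (L : ℂ) * ((Real.exp u : ℝ) : ℂ) ^ 2 * (starRingEnd ℂ) (km (Real.exp u))‖ ^ 2 / Real.exp u ^ 2) =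
      ‖(De a u : ℂ) - Mo S L u‖ ^ 2 * Real.exp (-u) := by
    intro u
    have h4 : De a u = difR a (1 / Real.exp u) := by
      unfold De
      rw [Real.exp_neg, one_div]
    have h5 : 1 / (L : ℂ) * ((Real.exp u : ℝ) : ℂ) ^ 2 * (starRingEnd ℂ) (km (Real.exp u)) = Mo S L u := by
      unfold Mo
      by_cases hu : 0 ≤ u ∧ u ≤ L
      · rw [if_pos hu, mul_assoc]
        congr 1
        rw [hkm]
        simp only
        rw [map_sum, Finset.mul_sum]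
        refine Finset.sum_congr rfl fun g _ => ?_
        have hcond : 1 ≤ Real.exp u ∧ Real.exp u ≤ Real.exp L :=
          ⟨Real.one_le_exp hu.1, Real.exp_le_exp.2 hu.2⟩
        unfold Km
        rw [if_pos hcond, Real.log_exp, map_mul, map_mul, Complex.conj_ofReal, hwd]
        simp only
        rw [map_div₀, map_one, Complex.conj_conj, hpp]
        simp only
        have h6 : ((Real.exp u : ℝ) : ℂ) ≠ 0 := by
          exact_mod_cast (Real.exp_pos u).ne'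
        have h7 : (starRingEnd ℂ) (((Real.exp u : ℝ) : ℂ) ^ (-cl g - 1)) = cexp (u * (cl g) - 2 * u) := by
          rw [Complex.cpow_def_of_ne_zero h6, ← Complex.exp_conj, map_mul]
          congr 1
          rw [← Complex.ofReal_log (Real.exp_pos u).le, Real.log_exp, Complex.conj_ofReal, map_sub, map_neg, map_one]
          have h8 : (starRingEnd ℂ) (cl g) = 1 - cl g := by
            unfold cl
            rw [map_add, map_mul, Complex.conj_I, Complex.conj_ofReal, map_div₀, map_one]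
            have h9 : (starRingEnd ℂ) 2 = 2 := Complex.conj_ofNat 2
            rw [h9]
            ring
          rw [h8]
          ring
        rw [h7, Complex.exp_sub]
        have h10 : cexp (2 * u) = ((Real.exp u : ℝ) : ℂ) ^ 2 := by
          rw [Complex.ofReal_exp, ← Complex.exp_nat_mul]
          push_cast
          rfl
        rw [h10]
        field_simp
      · rw [if_neg hu, hkm]
        simp only
        have h6 : ∑ g ∈ S, w g * Km g (p g) L (Real.exp u) = 0 := by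
          refine Finset.sum_eq_zero fun g _ => ?_
          unfold Km
          rw [if_neg, mul_zero]
          intro h7
          refine hu ⟨?_, Real.exp_le_exp.1 h7.2⟩
          have := Real.log_nonneg h7.1
          rwa [Real.log_exp] at this
        rw [h6, map_zero, mul_zero]
    rw [h5, ← h4, Real.exp_neg]
    have h6 := (Real.exp_pos u).ne'
    field_simp
  obtain ⟨x1, x2⟩ := exp_int (fun y : ℝ => ‖((difR a (1 / y) : ℝ) : ℂ) -
      1 / (L : ℂ) * (y : ℂ) ^ 2 * (starRingEnd ℂ) (km y)‖ ^ 2 / y ^ 2)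
  have x1' := x1.1 c1
  simp only [key] at x1' x2
  refine ⟨x1', ?_⟩
  rw [← x2]
  refine c2.trans ?_
  have e8 : (2 / L : ℝ) = 2 * q ^ 2 := by rw [hq2]; ring
  have e9 : (2 * (2 * W + M + 2 * C1 + 2 * C2) + C0 + 2 * C2) / L ^ (3 / 2 : ℝ) =
      (2 * (2 * W + M + 2 * C1 + 2 * C2) + C0 + 2 * C2) * q ^ 3 := by
    rw [← hq3]; ring
  have e10 : M / L = M * q ^ 2 := by rw [hq2]; ring
  rw [e8, e9, e10, ← hq4]
  exact hbound

end Pool.Agent.Q193.OE
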